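import Pool.Agent.N868.QD.KR2

set_option autoImplicit false

/-!
# Project QD, part KR: the limit of the discrete kernels
-/

namespace Pool.Agent.N868.QD

open MeasureTheory Set Filter Topology Complex
open Pool.Agent.N275.QD
open Pool.Agent.R225.LP (gk ks)
open scoped Real ENNReal ComplexConjugate

theorem exp_div_tendsto {c t : ℝ} (hc : 0 < c) (ht : 0 < t) (k : ℕ) :
    Tendsto (fun M : ℕ => Real.exp (-(c / (t / M))) / (t / M) ^ k) atTop (𝓝 0) := by
  have h1 : Tendsto (fun M : ℕ => c / t * (M : ℝ)) atTop atTop :=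
    tendsto_natCast_atTop_atTop.const_mul_atTop (by positivity)
  have h2 := (Real.tendsto_pow_mul_exp_neg_atTop_nhds_zero k).comp h1
  have h3 := h2.const_mul ((1 / c) ^ k)
  rw [mul_zero] at h3
  refine h3.congr' ?_
  filter_upwards [eventually_gt_atTop 0] with M hM
  have hM' : (0 : ℝ) < M := by exact_mod_cast hM
  simp only [Function.comp]
  have e1 : c / (t / M) = c / t * M := by field_simp
  have e2 : (1 / c) ^ k * (c / t * M) ^ k = ((t / M) ^ k)⁻¹ := by
    rw [← mul_pow, ← inv_pow]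
    congr 1
    field_simp
  rw [e1, ← mul_assoc, e2, mul_comm, ← div_eq_mul_inv]

theorem dir_re (α c : ℝ) : ((c : ℂ) * dir α).re = c * (2 * Real.sin α) := by simp [dir]

theorem dir_im (α c : ℝ) : ((c : ℂ) * dir α).im = c * Real.cos α := by simp [dir]

theorem mem_Hh (φ : ℝ) (z : ℂ) : z ∈ Hh φ ↔ 0 < z.re * Real.sin φ + z.im * Real.cos φ := Iff.rfl

theorem arg_le_of_wedge {α : ℝ} (h0 : 0 < α) (h1 : α < π / 2) {z : ℂ} (hz : z ∈ Hh 0 ∩ Hh α) :
    0 ≤ arg z ∧ arg z ≤ π - α := by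
  have him : 0 < z.im := (mem_Hh0 z).1 hz.1
  have harg : 0 ≤ arg z := Complex.arg_nonneg_iff.2 him.le
  have hle := Complex.arg_le_pi z
  refine ⟨harg, ?_⟩
  by_contra hcon
  push Not at hcon
  have h2 : z.re * Real.sin α + z.im * Real.cos α = ‖z‖ * Real.sin (arg z + α) := by
    rw [Real.sin_add]
    have e1 : ‖z‖ * (Real.sin (arg z) * Real.cos α + Real.cos (arg z) * Real.sin α) =
      (‖z‖ * Real.cos (arg z)) * Real.sin α + (‖z‖ * Real.sin (arg z)) * Real.cos α := by ring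
    rw [e1, Complex.norm_mul_cos_arg, Complex.norm_mul_sin_arg]
  have h3 : Real.sin (arg z + α) ≤ 0 := by
    have e1 : Real.sin (arg z + α) = -Real.sin (arg z + α - π) := by
      rw [Real.sin_sub_pi]
      ring
    rw [e1]
    have := Real.sin_nonneg_of_nonneg_of_le_pi (x := arg z + α - π) (by linarith) (by linarith [Real.pi_pos])
    linarith
  have h4 : ‖z‖ * Real.sin (arg z + α) ≤ 0 := mul_nonpos_of_nonneg_of_nonpos (norm_nonneg z) h3
  have h5 := (mem_Hh α z).1 hz.2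
  linarith

theorem gk_le {s r : ℝ} (hs : 0 < s) (hr : 0 ≤ r) {z : ℂ} (hz : 2 * r ≤ ‖z‖) :
    gk s z ≤ 1 / (4 * π) * (Real.exp (-(r ^ 2 / (2 * s))) / s) := by
  unfold gk
  have hpi := Real.pi_pos
  have e1 : Real.exp (-(‖z‖ ^ 2 / (4 * s))) ≤ Real.exp (-(r ^ 2 / (2 * s))) := by
    apply Real.exp_le_exp.2
    apply neg_le_neg
    rw [div_le_div_iff₀ (by positivity) (by positivity)]
    have : (2 * r) ^ 2 ≤ ‖z‖ ^ 2 := pow_le_pow_left₀ (by positivity) hz 2
    nlinarith
  calc Real.exp (-(‖z‖ ^ 2 / (4 * s))) / (4 * π * s) ≤ Real.exp (-(r ^ 2 / (2 * s))) / (4 * π * s) :=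
        div_le_div_of_nonneg_right e1 (by positivity)
    _ = _ := by field_simp

theorem im_le_dist (x y : ℂ) : x.im - y.im ≤ dist x y := by
  rw [dist_eq_norm]
  have h1 := Complex.abs_im_le_norm (x - y)
  have h2 := le_abs_self (x - y).im
  rw [Complex.sub_im] at h1 h2
  linarith

theorem lin_le_dist (α : ℝ) (x y : ℂ) :
    (x.re * Real.sin α + x.im * Real.cos α) - (y.re * Real.sin α + y.im * Real.cos α) ≤ dist x y := by
  rw [dist_eq_norm]
  have h1 := Real.sin_sq_add_cos_sq α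
  have h2 : ‖x - y‖ ^ 2 = (x.re - y.re) ^ 2 + (x.im - y.im) ^ 2 := by
    rw [Complex.sq_norm, Complex.normSq_apply, Complex.sub_re, Complex.sub_im]
    ring
  refine (le_abs_self _).trans (abs_le_of_sq_le_sq ?_ (norm_nonneg _))
  rw [h2]
  have h3 : ((x.re - y.re) ^ 2 + (x.im - y.im) ^ 2) * (Real.sin α ^ 2 + Real.cos α ^ 2) =
      (x.re * Real.sin α + x.im * Real.cos α - (y.re * Real.sin α + y.im * Real.cos α)) ^ 2 +
      ((x.re - y.re) * Real.cos α - (x.im - y.im) * Real.sin α) ^ 2 := by ring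
  rw [h1, mul_one] at h3
  have h4 := sq_nonneg ((x.re - y.re) * Real.cos α - (x.im - y.im) * Real.sin α)
  linarith

theorem kr0 (hLO : S_LO) (hUP : S_UP) (hPH : S_PH) (hGW : S_GW) (hGC : S_GC) {α t ε : ℝ} {K : Set ℂ}
    (h0 : 0 < α) (h1 : α < π / 2) (ht : 0 < t) (hK : IsCompact K) (hKc : K ⊆ Cn α) (hε : 0 < ε) :
    ∀ᶠ M : ℕ in atTop, ∀ m : ℕ, t / 2 ≤ (m + 1) * (t / M) → (m + 1) * (t / M) ≤ t →
      ∀ z ∈ K ∩ Hh 0, ∀ w ∈ K ∩ Hh 0,
        |(hk (Hh 0) (Hh α)ᶜ (t / M) m z w).toReal - Gf α ((m + 1) * (t / M)) z w| ≤ ε := by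
  rcases K.eq_empty_or_nonempty with rfl | hKne
  · filter_upwards with M m _ _ z hz
    exact absurd hz.1 (notMem_empty z)
  have hpi := Real.pi_pos
  have hsin : 0 < Real.sin α := Real.sin_pos_of_pos_of_lt_pi h0 (by linarith)
  have hcos : 0 < Real.cos α := Real.cos_pos_of_mem_Ioo ⟨by linarith, h1⟩
  have hcos1 : Real.cos α ≤ 1 := Real.cos_le_one α
  -- the compact set
  set K2 : Set ℂ := (fun q : ℂ × ℝ => q.1 + (q.2 : ℂ) * dir α) '' (K ×ˢ Icc (0 : ℝ) 1) with hK2
  have hK2c : IsCompact K2 := (hK.prod isCompact_Icc).image (by fun_prop)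
  have hK2C : K2 ⊆ Cn α := by
    rintro _ ⟨⟨z, c⟩, ⟨hz, hc⟩, rfl⟩
    exact Cn_add h0 h1 (hKc hz) hc.1
  have hmem : ∀ z ∈ K, ∀ c : ℝ, 0 ≤ c → c ≤ 1 → z + (c : ℂ) * dir α ∈ K2 := fun z hz c h2 h3 =>
    ⟨(z, c), ⟨hz, ⟨h2, h3⟩⟩, rfl⟩
  have hKK2 : ∀ z ∈ K, z ∈ K2 := by
    intro z hz
    have := hmem z hz 0 le_rfl zero_le_one
    simpa using this
  have hK2ne : K2.Nonempty := hKne.mono hKK2
  -- largest argument
  have hargc : ContinuousOn arg K2 := by
    intro z hz
    refine (Complex.continuousAt_arg ?_).continuousWithinAt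
    left
    obtain ⟨g1, g2⟩ := hK2C hz
    by_contra hcon
    push Not at hcon
    have g3 : z.re * Real.cos α ≤ 0 := mul_nonpos_of_nonpos_of_nonneg hcon hcos.le
    have g4 : 0 ≤ z.im * Real.sin α := mul_nonneg g1 hsin.le
    linarith
  obtain ⟨z₀, hz₀, hmax⟩ := hK2c.exists_isMaxOn hK2ne hargc
  have hz₀' := (mem_Cn h0 h1 z₀).1 (hK2C hz₀)
  set δ₀ : ℝ := π / 2 - α - arg z₀ with hδ₀
  have hδ₀0 : 0 < δ₀ := by rw [hδ₀]; linarith [hz₀'.2.2]
  have hδ₀1 : δ₀ < π / 2 := by rw [hδ₀]; linarith [hz₀'.2.1]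
  have hargK2 : ∀ z ∈ K2, arg z ≤ π / 2 - α - δ₀ := by
    intro z hz
    have g1 : arg z ≤ arg z₀ := hmax hz
    rw [hδ₀]
    linarith
  -- uniform continuity
  set S : Set (ℝ × ℂ × ℂ) := Icc (t / 2) t ×ˢ (K2 ×ˢ K2) with hS
  have hSc : IsCompact S := isCompact_Icc.prod (hK2c.prod hK2c)
  have hF1 : ContinuousOn (fun q : ℝ × ℂ × ℂ => gk q.1 (conj q.2.2 - q.2.1)) S := by
    unfold gk
    have g1 : ContinuousOn (fun q : ℝ × ℂ × ℂ => ‖conj q.2.2 - q.2.1‖ ^ 2) S := by
      apply Continuous.continuousOn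
      have : Continuous (fun q : ℝ × ℂ × ℂ => conj q.2.2) :=
        Complex.continuous_conj.comp (by fun_prop)
      fun_prop
    have g2 : ContinuousOn (fun q : ℝ × ℂ × ℂ => 4 * q.1) S := by fun_prop
    have g3 : ∀ q ∈ S, 4 * q.1 ≠ 0 := by
      intro q hq
      have := hq.1.1
      linarith
    have g4 : ContinuousOn (fun q : ℝ × ℂ × ℂ => 4 * π * q.1) S := by fun_prop
    have g5 : ∀ q ∈ S, 4 * π * q.1 ≠ 0 := by
      intro q hq
      have := hq.1.1
      have : 0 < q.1 := by linarith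
      positivity
    exact (Real.continuous_exp.comp_continuousOn ((g1.div g2 g3).neg)).div g4 g5
  have hF2 : ContinuousOn (fun q : ℝ × ℂ × ℂ => Gf α q.1 q.2.1 q.2.2) S := by
    refine (hGC α h0 h1).mono ?_
    intro q hq
    have g1 := (mem_Cn h0 h1 q.2.1).1 (hK2C hq.2.1)
    have g2 := (mem_Cn h0 h1 q.2.2).1 (hK2C hq.2.2)
    have g3 := hq.1.1
    exact ⟨by linarith, g1.1, g1.2.1, g1.2.2, g2.1, g2.2.1, g2.2.2⟩
  obtain ⟨δ1, hδ1, hU1⟩ := Metric.uniformContinuousOn_iff.1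
    (hSc.uniformContinuousOn_of_continuous hF1) (ε / 8) (by positivity)
  obtain ⟨δ2, hδ2, hU2⟩ := Metric.uniformContinuousOn_iff.1
    (hSc.uniformContinuousOn_of_continuous hF2) (ε / 8) (by positivity)
  -- the shift
  obtain ⟨c, hc0, hc1, hcδ1, hcδ2⟩ : ∃ c : ℝ, 0 < c ∧ c ≤ 1 ∧ c * ‖dir α‖ < δ1 ∧ c * ‖dir α‖ < δ2 := by
    refine ⟨min 1 (min δ1 δ2 / (‖dir α‖ + 1)), by positivity, min_le_left _ _, ?_, ?_⟩
    · have g1 : min 1 (min δ1 δ2 / (‖dir α‖ + 1)) ≤ δ1 / (‖dir α‖ + 1) :=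
        (min_le_right _ _).trans (div_le_div_of_nonneg_right (min_le_left _ _) (by positivity))
      calc min 1 (min δ1 δ2 / (‖dir α‖ + 1)) * ‖dir α‖ ≤ δ1 / (‖dir α‖ + 1) * ‖dir α‖ :=
            mul_le_mul_of_nonneg_right g1 (norm_nonneg _)
        _ < δ1 := by
            rw [div_mul_eq_mul_div, div_lt_iff₀ (by positivity)]
            nlinarith [norm_nonneg (dir α)]
    · have g1 : min 1 (min δ1 δ2 / (‖dir α‖ + 1)) ≤ δ2 / (‖dir α‖ + 1) :=
        (min_le_right _ _).trans (div_le_div_of_nonneg_right (min_le_right _ _) (by positivity))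
      calc min 1 (min δ1 δ2 / (‖dir α‖ + 1)) * ‖dir α‖ ≤ δ2 / (‖dir α‖ + 1) * ‖dir α‖ :=
            mul_le_mul_of_nonneg_right g1 (norm_nonneg _)
        _ < δ2 := by
            rw [div_mul_eq_mul_div, div_lt_iff₀ (by positivity)]
            nlinarith [norm_nonneg (dir α)]
  set e : ℂ := (c : ℂ) * dir α with he
  have hnorme : ‖e‖ = c * ‖dir α‖ := by
    rw [he, norm_mul, Complex.norm_real, Real.norm_of_nonneg hc0.le]
  set r : ℝ := c * Real.cos α with hr
  have hr0 : 0 < r := by positivity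
  have heim : e.im = r := by rw [he, dir_im]
  have here : e.re = c * (2 * Real.sin α) := by rw [he, dir_re]
  have helin : r ≤ e.re * Real.sin α + e.im * Real.cos α := by
    rw [heim, here, hr]
    have g1 := Real.sin_sq_add_cos_sq α
    have g2 : c * (2 * Real.sin α) * Real.sin α + c * Real.cos α * Real.cos α =
      c * (Real.sin α ^ 2 + (Real.sin α ^ 2 + Real.cos α ^ 2)) := by ring
    rw [g2, g1]
    have g3 : Real.cos α ≤ Real.sin α ^ 2 + 1 := by nlinarith [sq_nonneg (Real.sin α)]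
    exact mul_le_mul_of_nonneg_left g3 hc0.le
  obtain ⟨C, hC0, hC⟩ := Gf_bound h0 h1 hδ₀0 hδ₀1 hr0
  -- the error
  have herr : Tendsto (fun M : ℕ => (1 / (4 * π) + C) * (Real.exp (-(r ^ 2 / (2 * (t / M)))) / (t / M)) +
      t / (4 * π) * (Real.exp (-(r ^ 2 / (4 * (t / M)))) / (t / M) ^ 2)) atTop (𝓝 0) := by
    have g1 := (exp_div_tendsto (c := r ^ 2 / 2) (by positivity) ht 1).const_mul (1 / (4 * π) + C)
    have g2 := (exp_div_tendsto (c := r ^ 2 / 4) (by positivity) ht 2).const_mul (t / (4 * π))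
    have g3 := g1.add g2
    rw [mul_zero, mul_zero, add_zero] at g3
    refine g3.congr fun M => ?_
    rw [pow_one, div_div, div_div]
  have hev : ∀ᶠ M : ℕ in atTop, (1 / (4 * π) + C) * (Real.exp (-(r ^ 2 / (2 * (t / M)))) / (t / M)) +
      t / (4 * π) * (Real.exp (-(r ^ 2 / (4 * (t / M)))) / (t / M) ^ 2) < ε / 4 :=
    herr.eventually (gt_mem_nhds (by positivity))
  have hev2 : ∀ᶠ M : ℕ in atTop, t ≤ (M : ℝ) :=
    tendsto_natCast_atTop_atTop.eventually (eventually_ge_atTop t)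
  filter_upwards [hev, hev2] with M hM1 hM2 m hm1 hm2 z hz w hw
  have hM0 : (0 : ℝ) < M := by linarith
  set s : ℝ := t / M with hs
  have hs0 : 0 < s := by positivity
  have hs1 : s ≤ 1 := by
    rw [hs, div_le_one hM0]
    exact hM2
  set T : ℝ := (m + 1) * s with hT
  have hT0 : 0 < T := by positivity
  have hzim : 0 < z.im := (mem_Hh0 z).1 hz.2
  have hwim : 0 < w.im := (mem_Hh0 w).1 hw.2
  have hzK2 := hKK2 z hz.1
  have hwK2 := hKK2 w hw.1
  have hzeK2 : z + e ∈ K2 := hmem z hz.1 c hc0.le hc1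
  have hweK2 : w + e ∈ K2 := hmem w hw.1 c hc0.le hc1
  have hzeim : (z + e).im = z.im + r := by rw [Complex.add_im, heim]
  have hweim : (w + e).im = w.im + r := by rw [Complex.add_im, heim]
  have hzeim0 : 0 < (z + e).im := by rw [hzeim]; linarith
  have hweim0 : 0 < (w + e).im := by rw [hweim]; linarith
  have hzW := wedge_of_Cn h0 h1 (hK2C hzK2) hzim
  have hwW := wedge_of_Cn h0 h1 (hK2C hwK2) hwim
  have hzeW := wedge_of_Cn h0 h1 (hK2C hzeK2) hzeim0
  have hwarg := (mem_Cn h0 h1 w).1 (hK2C hwK2)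
  have hwearg := (mem_Cn h0 h1 (w + e)).1 (hK2C hweK2)
  -- the Dirichlet kernels
  have D1 := hPH w hwim
  have D1' := hPH (w + e) hweim0
  have D2 := (hGW α w h0 h1 hwim hwarg.2.2).1
  have D2' := (hGW α (w + e) h0 h1 hweim0 hwearg.2.2).1
  have hWo : IsOpen (Hh 0 ∩ Hh α) := (Hh_open 0).inter (Hh_open α)
  set κ : ℝ := (1 / (4 * π) + C) * (Real.exp (-(r ^ 2 / (2 * s))) / s) with hκ
  have hκ0 : 0 ≤ κ := by positivity
  have hterm : (m : ℝ) * (Real.exp (-(r ^ 2 / (4 * s))) / (4 * π * s)) ≤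
      t / (4 * π) * (Real.exp (-(r ^ 2 / (4 * s))) / s ^ 2) := by
    have g1 : (m : ℝ) ≤ t / s := by
      rw [le_div_iff₀ hs0]
      have : (m + 1) * s ≤ t := hm2
      nlinarith
    calc (m : ℝ) * (Real.exp (-(r ^ 2 / (4 * s))) / (4 * π * s)) ≤
        t / s * (Real.exp (-(r ^ 2 / (4 * s))) / (4 * π * s)) :=
          mul_le_mul_of_nonneg_right g1 (by positivity)
      _ = _ := by field_simp
  set err : ℝ := κ + m * (Real.exp (-(r ^ 2 / (4 * s))) / (4 * π * s)) with herrd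
  have herr0 : 0 ≤ err := by positivity
  have herr4 : err ≤ ε / 4 := by
    rw [herrd]
    linarith
  -- the half-plane
  have hA1 : ENNReal.ofReal (pH w T z) ≤ ks (Hh 0) s m z w :=
    hLO (Hh 0) w (pH w) (Hh_open 0) D1 s m z hs0 hz.2
  have hE0 : ∀ x : ℂ, x - e ∈ Hh 0 → r < x.im := by
    intro x hx
    have := (mem_Hh0 _).1 hx
    rw [Complex.sub_im, heim] at this
    linarith
  have hconj : ∀ x : ℂ, r < x.im → gk s (conj (w + e) - x) ≤
      1 / (4 * π) * (Real.exp (-(r ^ 2 / (2 * s))) / s) := by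
    intro x hx
    apply gk_le hs0 hr0.le
    have g1 := Complex.abs_im_le_norm (conj (w + e) - x)
    have g2 := neg_abs_le (conj (w + e) - x).im
    have g3 : (conj (w + e) - x).im = -(w.im + r) - x.im := by
      rw [Complex.sub_im, Complex.conj_im, hweim]
    rw [g3] at g1 g2
    linarith
  have hA2 : ks (Hh 0) s m z w ≤ ENNReal.ofReal (pH (w + e) T (z + e) + err) := by
    rw [← ks_trans (Hh 0) s m e z w]
    have g1 := hUP (Hh 0) {x | x - e ∈ Hh 0} (w + e) (pH (w + e)) r κ s (Hh_open 0) D1'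
      ((Hh_open 0).measurableSet.preimage (measurable_id.sub_const e)) hr0
      (by
        intro x hx y hy
        have g2 := hE0 x hx
        have g3 : y.im ≤ 0 := by
          by_contra hcon
          push Not at hcon
          exact hy ((mem_Hh0 y).2 hcon)
        have g4 := im_le_dist x y
        linarith)
      (by
        intro x hx
        have g2 := hE0 x hx
        exact (mem_Hh0 x).2 (by linarith)) hs0 hκ0
      (by
        intro x hx
        have g2 := hE0 x hx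
        have g3 := hconj x g2
        unfold pH
        rw [if_pos (by linarith)]
        have g4 : 1 / (4 * π) * (Real.exp (-(r ^ 2 / (2 * s))) / s) ≤ κ := by
          rw [hκ]
          apply mul_le_mul_of_nonneg_right (by linarith) (by positivity)
        linarith) m (z + e)
      (by
        change z + e - e ∈ Hh 0
        rw [add_sub_cancel_right]
        exact hz.2)
    rw [add_assoc] at g1
    exact g1
  -- the wedge
  have hB1 : ENNReal.ofReal (pW α w T z) ≤ ks (Hh 0 ∩ Hh α) s m z w :=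
    hLO (Hh 0 ∩ Hh α) w (pW α w) hWo D2 s m z hs0 hzW
  have hlin : ∀ x : ℂ, x - e ∈ Hh 0 ∩ Hh α → r < x.re * Real.sin α + x.im * Real.cos α := by
    intro x hx
    have g1 := (mem_Hh α _).1 hx.2
    rw [Complex.sub_re, Complex.sub_im] at g1
    linarith
  have hEW : ∀ x : ℂ, x - e ∈ Hh 0 ∩ Hh α → x ∈ Hh 0 ∩ Hh α := by
    intro x hx
    have g1 := hE0 x hx.1
    have g2 := hlin x hx
    exact ⟨(mem_Hh0 x).2 (by linarith), (mem_Hh α x).2 (by linarith)⟩
  have hB2 : ks (Hh 0 ∩ Hh α) s m z w ≤ ENNReal.ofReal (pW α (w + e) T (z + e) + err) := by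
    rw [← ks_trans (Hh 0 ∩ Hh α) s m e z w]
    have g1 := hUP (Hh 0 ∩ Hh α) {x | x - e ∈ Hh 0 ∩ Hh α} (w + e) (pW α (w + e)) r κ s hWo D2'
      (hWo.measurableSet.preimage (measurable_id.sub_const e)) hr0
      (by
        intro x hx y hy
        by_cases hy0 : y ∈ Hh 0
        · have g2 := hlin x hx
          have g3 : y.re * Real.sin α + y.im * Real.cos α ≤ 0 := by
            by_contra hcon
            push Not at hcon
            exact hy ⟨hy0, (mem_Hh α y).2 hcon⟩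
          have g4 := lin_le_dist α x y
          linarith
        · have g2 := hE0 x hx.1
          have g3 : y.im ≤ 0 := by
            by_contra hcon
            push Not at hcon
            exact hy0 ((mem_Hh0 y).2 hcon)
          have g4 := im_le_dist x y
          linarith)
      hEW hs0 hκ0
      (by
        intro x hx
        have g2 := hE0 x hx.1
        have g3 := hconj x g2
        have g5 := arg_le_of_wedge h0 h1 (hEW x hx)
        have g6 := hC s x (w + e) hs0 hs1 g5.1 g5.2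
          (by
            have := Complex.abs_im_le_norm x
            have := le_abs_self x.im
            linarith) hwearg.2.1 (hargK2 _ hweK2)
          (by
            have := Complex.abs_im_le_norm (w + e)
            have := le_abs_self (w + e).im
            linarith)
        have g7 := (abs_le.1 g6).2
        unfold pW
        rw [if_pos (hEW x hx)]
        have g8 : κ = 1 / (4 * π) * (Real.exp (-(r ^ 2 / (2 * s))) / s) +
            C * (Real.exp (-(r ^ 2 / (2 * s))) / s) := by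
          rw [hκ]
          ring
        linarith) m (z + e)
      (by
        change z + e - e ∈ Hh 0 ∩ Hh α
        rw [add_sub_cancel_right]
        exact hzW)
    rw [add_assoc] at g1
    exact g1
  -- comparison
  have hTI : T ∈ Icc (t / 2) t := ⟨hm1, hm2⟩
  have hp1 : ((T, z, w) : ℝ × ℂ × ℂ) ∈ S := ⟨hTI, hzK2, hwK2⟩
  have hp2 : ((T, z + e, w + e) : ℝ × ℂ × ℂ) ∈ S := ⟨hTI, hzeK2, hweK2⟩
  have hdist : dist ((T, z + e, w + e) : ℝ × ℂ × ℂ) (T, z, w) = ‖e‖ := by
    rw [Prod.dist_eq, Prod.dist_eq]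
    simp [dist_eq_norm]
  have hcomp1 := hU1 _ hp2 _ hp1 (by rw [hdist, hnorme]; exact hcδ1)
  have hcomp2 := hU2 _ hp2 _ hp1 (by rw [hdist, hnorme]; exact hcδ2)
  simp only [Real.dist_eq] at hcomp1 hcomp2
  have hpH : pH w T z = gk T (w - z) - gk T (conj w - z) := by
    unfold pH
    rw [if_pos hzim]
  have hpH' : pH (w + e) T (z + e) = gk T (w - z) - gk T (conj (w + e) - (z + e)) := by
    unfold pH
    rw [if_pos hzeim0, add_sub_add_right_eq_sub]
  have hpW : pW α w T z = gk T (w - z) - gk T (conj w - z) - Gf α T z w := by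
    unfold pW
    rw [if_pos hzW]
  have hpW' : pW α (w + e) T (z + e) =
      gk T (w - z) - gk T (conj (w + e) - (z + e)) - Gf α T (z + e) (w + e) := by
    unfold pW
    rw [if_pos hzeW, add_sub_add_right_eq_sub]
  -- conclusion
  have hadd := hk_add (Hh_open 0).measurableSet (Hh_open α).measurableSet.compl s m w z
  have hdiff : Hh 0 \ (Hh α)ᶜ = Hh 0 ∩ Hh α := by
    rw [sdiff_compl]
  rw [hdiff] at hadd
  have hAtop : ks (Hh 0) s m z w ≠ ∞ := ne_top_of_le_ne_top ENNReal.ofReal_ne_top hA2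
  have hBtop : ks (Hh 0 ∩ Hh α) s m z w ≠ ∞ := ne_top_of_le_ne_top ENNReal.ofReal_ne_top hB2
  have hHtop : hk (Hh 0) (Hh α)ᶜ s m z w ≠ ∞ :=
    ne_top_of_le_ne_top hAtop (by rw [← hadd]; exact le_self_add)
  have hsum : (hk (Hh 0) (Hh α)ᶜ s m z w).toReal + (ks (Hh 0 ∩ Hh α) s m z w).toReal =
      (ks (Hh 0) s m z w).toReal := by
    rw [← ENNReal.toReal_add hHtop hBtop, hadd]
  have hA1' : pH w T z ≤ (ks (Hh 0) s m z w).toReal :=
    (ENNReal.ofReal_le_iff_le_toReal hAtop).1 hA1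
  have hB1' : pW α w T z ≤ (ks (Hh 0 ∩ Hh α) s m z w).toReal :=
    (ENNReal.ofReal_le_iff_le_toReal hBtop).1 hB1
  have hA2' : (ks (Hh 0) s m z w).toReal ≤ pH (w + e) T (z + e) + err :=
    ENNReal.toReal_le_of_le_ofReal (by
      have := D1'.nonneg T (z + e) hT0
      linarith) hA2
  have hB2' : (ks (Hh 0 ∩ Hh α) s m z w).toReal ≤ pW α (w + e) T (z + e) + err :=
    ENNReal.toReal_le_of_le_ofReal (by
      have := D2'.nonneg T (z + e) hT0
      linarith) hB2
  have c1 := abs_lt.1 hcomp1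
  have c2 := abs_lt.1 hcomp2
  rw [abs_le]
  constructor
  · linarith [c1.1, c1.2, c2.1, c2.2]
  · linarith [c1.1, c1.2, c2.1, c2.2]

theorem kr (hLO : S_LO) (hUP : S_UP) (hPH : S_PH) (hGW : S_GW) (hGC : S_GC) : S_KR := by
  intro α φ t K ε h0 hφ h1 ht hK hKa hε
  have hα : α < π / 2 := by linarith
  have hpi := Real.pi_pos
  set K' : Set ℂ := (fun z : ℂ => Complex.exp ((φ : ℂ) * I) * z) '' K with hK'
  have hK'c : IsCompact K' := hK.image (by fun_prop)
  have hmemK' : ∀ z ∈ K, Complex.exp ((φ : ℂ) * I) * z ∈ K' := fun z hz => mem_image_of_mem _ hz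
  have hK'C : K' ⊆ Cn α := by
    rintro _ ⟨z, hz, rfl⟩
    obtain ⟨g1, g2, g3⟩ := hKa z hz
    have hz0 : z ≠ 0 := by
      rintro rfl
      simp at g1
    have harg : arg (Complex.exp ((φ : ℂ) * I) * z) = arg z + φ := by
      have e1 : Complex.exp ((φ : ℂ) * I) * z =
          ((‖z‖ : ℝ) : ℂ) * (Complex.cos ((arg z + φ : ℝ) : ℂ) + Complex.sin ((arg z + φ : ℝ) : ℂ) * I) := by
        rw [← Complex.exp_mul_I]
        conv_lhs => rw [← Complex.norm_mul_exp_arg_mul_I z]
        push_cast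
        rw [add_mul, Complex.exp_add]
        ring
      rw [e1]
      exact Complex.arg_mul_cos_add_sin_mul_I (norm_pos_iff.2 hz0) ⟨by linarith, by linarith⟩
    rw [mem_Cn h0 hα, harg]
    refine ⟨mul_ne_zero (Complex.exp_ne_zero _) hz0, g2, g3⟩
  filter_upwards [kr0 hLO hUP hPH hGW hGC h0 hα ht hK'c hK'C hε] with M hM m hm1 hm2 z hz w hw
  have hrot : ∀ x : ℂ, x ∈ Hh φ → Complex.exp ((φ : ℂ) * I) * x ∈ Hh 0 := by
    intro x hx
    have g1 := (mem_Hh φ x).1 hx
    rw [mem_Hh0, Complex.mul_im, Complex.exp_ofReal_mul_I_re, Complex.exp_ofReal_mul_I_im]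
    linarith
  have h := hM m hm1 hm2 _ ⟨hmemK' z hz.1, hrot z hz.2⟩ _ ⟨hmemK' w hw.1, hrot w hw.2⟩
  rw [hk_rot]
  exact h

end Pool.Agent.N868.QD
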