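import Pool.Agent.N275.QD.Def
import Pool.Agent.R225.LP.TRb

set_option autoImplicit false

/-!
# Project QD, part KR: chains which visit a set, isometries
-/

namespace Pool.Agent.N868.QD

open MeasureTheory Set Filter Topology Complex
open Pool.Agent.N275.QD
open Pool.Agent.R225.LP (gk ks)
open scoped Real ENNReal ComplexConjugate

theorem ks_meas (Q : Set ℂ) (s : ℝ) (n : ℕ) (b : ℂ) : Measurable (fun a => ks Q s n a b) := by
  simp_rw [Pool.Agent.R225.LP.TR.ks_eq]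
  exact Pool.Agent.R225.LP.TR.meas_left
    (Pool.Agent.R225.LP.TR.ch_meas (Pool.Agent.R225.LP.TR.kp_meas s) Q n) b

theorem gk_meas (s : ℝ) (a : ℂ) : Measurable (fun z : ℂ => ENNReal.ofReal (gk s (z - a))) :=
  Pool.Agent.R225.LP.TR.meas_right (Pool.Agent.R225.LP.TR.kp_meas s) a

theorem hk_add {Q A : Set ℂ} (_hQ : MeasurableSet Q) (hA : MeasurableSet A) (s : ℝ) (n : ℕ) (b : ℂ) :
    ∀ a : ℂ, hk Q A s n a b + ks (Q \ A) s n a b = ks Q s n a b := by
  induction n with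
  | zero =>
    intro a
    change 0 + ENNReal.ofReal (gk s (b - a)) = ENNReal.ofReal (gk s (b - a))
    rw [zero_add]
  | succ n ih =>
    intro a
    change ((∫⁻ z in Q ∩ A, ENNReal.ofReal (gk s (z - a)) * ks Q s n z b) +
      ∫⁻ z in Q \ A, ENNReal.ofReal (gk s (z - a)) * hk Q A s n z b) +
      (∫⁻ z in Q \ A, ENNReal.ofReal (gk s (z - a)) * ks (Q \ A) s n z b) =
      ∫⁻ z in Q, ENNReal.ofReal (gk s (z - a)) * ks Q s n z b
    have hmm : Measurable (fun z => ENNReal.ofReal (gk s (z - a)) * ks (Q \ A) s n z b) :=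
      (gk_meas s a).mul (ks_meas (Q \ A) s n b)
    rw [add_assoc, ← lintegral_add_right _ hmm]
    simp_rw [← mul_add, ih]
    exact lintegral_inter_add_sdiff _ Q hA

theorem ks_map {Φ : ℂ → ℂ} (hm : MeasurePreserving Φ volume volume) (he : MeasurableEmbedding Φ)
    (hd : ∀ x y, ‖Φ y - Φ x‖ = ‖y - x‖) (Q : Set ℂ) (s : ℝ) (n : ℕ) (b : ℂ) :
    ∀ a : ℂ, ks Q s n (Φ a) (Φ b) = ks (Φ ⁻¹' Q) s n a b := by
  have hg : ∀ x y, gk s (Φ y - Φ x) = gk s (y - x) := by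
    intro x y
    unfold gk
    rw [hd]
  induction n with
  | zero =>
    intro a
    change ENNReal.ofReal (gk s (Φ b - Φ a)) = ENNReal.ofReal (gk s (b - a))
    rw [hg]
  | succ n ih =>
    intro a
    change ∫⁻ z in Q, ENNReal.ofReal (gk s (z - Φ a)) * ks Q s n z (Φ b) =
      ∫⁻ z in Φ ⁻¹' Q, ENNReal.ofReal (gk s (z - a)) * ks (Φ ⁻¹' Q) s n z b
    rw [← hm.setLIntegral_comp_preimage_emb he]
    simp_rw [hg, ih]

theorem hk_map {Φ : ℂ → ℂ} (hm : MeasurePreserving Φ volume volume) (he : MeasurableEmbedding Φ)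
    (hd : ∀ x y, ‖Φ y - Φ x‖ = ‖y - x‖) (Q A : Set ℂ) (s : ℝ) (n : ℕ) (b : ℂ) :
    ∀ a : ℂ, hk Q A s n (Φ a) (Φ b) = hk (Φ ⁻¹' Q) (Φ ⁻¹' A) s n a b := by
  have hg : ∀ x y, gk s (Φ y - Φ x) = gk s (y - x) := by
    intro x y
    unfold gk
    rw [hd]
  induction n with
  | zero => intro a; rfl
  | succ n ih =>
    intro a
    change (∫⁻ z in Q ∩ A, ENNReal.ofReal (gk s (z - Φ a)) * ks Q s n z (Φ b)) +
      (∫⁻ z in Q \ A, ENNReal.ofReal (gk s (z - Φ a)) * hk Q A s n z (Φ b)) =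
      (∫⁻ z in Φ ⁻¹' Q ∩ Φ ⁻¹' A, ENNReal.ofReal (gk s (z - a)) * ks (Φ ⁻¹' Q) s n z b) +
      ∫⁻ z in Φ ⁻¹' Q \ Φ ⁻¹' A, ENNReal.ofReal (gk s (z - a)) * hk (Φ ⁻¹' Q) (Φ ⁻¹' A) s n z b
    rw [← hm.setLIntegral_comp_preimage_emb he _ (Q ∩ A), ← hm.setLIntegral_comp_preimage_emb he _ (Q \ A)]
    simp_rw [hg, ih, ks_map hm he hd]
    rfl

theorem mem_Hh0 (z : ℂ) : z ∈ Hh 0 ↔ 0 < z.im := by
  unfold Hh
  simp

theorem Hh_open (φ : ℝ) : IsOpen (Hh φ) := by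
  unfold Hh
  exact isOpen_lt continuous_const (by fun_prop)

theorem ks_trans (Q : Set ℂ) (s : ℝ) (n : ℕ) (e a b : ℂ) :
    ks {x | x - e ∈ Q} s n (a + e) (b + e) = ks Q s n a b := by
  have h := ks_map (Φ := fun x : ℂ => x + e) (measurePreserving_add_right volume e)
    (measurableEmbedding_addRight e)
    (by
      intro x y
      rw [add_sub_add_right_eq_sub]) {x | x - e ∈ Q} s n b a
  rw [h]
  have e1 : (fun x : ℂ => x + e) ⁻¹' {x | x - e ∈ Q} = Q := by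
    ext x
    change x + e - e ∈ Q ↔ x ∈ Q
    rw [add_sub_cancel_right]
  rw [e1]

/-- turning the coordinates -/
theorem hk_rot (α φ s : ℝ) (n : ℕ) (a b : ℂ) :
    hk (Hh φ) (Hh (φ + α))ᶜ s n a b =
      hk (Hh 0) (Hh α)ᶜ s n (Complex.exp ((φ : ℂ) * I) * a) (Complex.exp ((φ : ℂ) * I) * b) := by
  set ρ : Circle := Circle.exp φ with hρ
  have hρe : (ρ : ℂ) = Complex.exp ((φ : ℂ) * I) := Circle.coe_exp φ
  have hΦ : ∀ x : ℂ, rotation ρ x = Complex.exp ((φ : ℂ) * I) * x := by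
    intro x
    rw [rotation_apply, hρe]
  have h := hk_map (Φ := fun x : ℂ => rotation ρ x) (rotation ρ).measurePreserving
    (rotation ρ).toHomeomorph.measurableEmbedding
    (by
      intro x y
      rw [← map_sub, LinearIsometryEquiv.norm_map]) (Hh 0) (Hh α)ᶜ s n b a
  rw [← hΦ, ← hΦ, h]
  have hre : (Complex.exp ((φ : ℂ) * I)).re = Real.cos φ := Complex.exp_ofReal_mul_I_re φ
  have him : (Complex.exp ((φ : ℂ) * I)).im = Real.sin φ := Complex.exp_ofReal_mul_I_im φ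
  have e1 : (fun x : ℂ => rotation ρ x) ⁻¹' (Hh 0) = Hh φ := by
    ext x
    rw [mem_preimage, hΦ, mem_Hh0]
    unfold Hh
    rw [mem_ofPred_eq, Complex.mul_im, hre, him]
    constructor <;> intro h <;> linarith
  have e2 : (fun x : ℂ => rotation ρ x) ⁻¹' (Hh α)ᶜ = (Hh (φ + α))ᶜ := by
    rw [preimage_compl]
    congr 1
    ext x
    rw [mem_preimage, hΦ]
    unfold Hh
    rw [mem_ofPred_eq, mem_ofPred_eq, Complex.mul_im, Complex.mul_re, hre, him, Real.sin_add, Real.cos_add]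
    constructor <;> intro h <;> linarith
  rw [e1, e2]

end Pool.Agent.N868.QD
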