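import Pool.Agent.N868.QD.KR1
import Pool.Agent.N789.QD.KF

set_option autoImplicit false

/-!
# Project QD, part KR: the cone and the bound of the diffracted kernel
-/

namespace Pool.Agent.N868.QD

open MeasureTheory Set Filter Topology Complex
open Pool.Agent.N275.QD
open Pool.Agent.R225.LP (gk ks)
open scoped Real ENNReal ComplexConjugate

/-- the cone `z ≠ 0`, `0 ≤ arg z < π/2 - α` -/
def Cn (α : ℝ) : Set ℂ := {z | 0 ≤ z.im ∧ z.im * Real.sin α < z.re * Real.cos α}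

theorem mem_Cn {α : ℝ} (h0 : 0 < α) (h1 : α < π / 2) (z : ℂ) :
    z ∈ Cn α ↔ z ≠ 0 ∧ 0 ≤ arg z ∧ arg z < π / 2 - α := by
  have hre : z.re = ‖z‖ * Real.cos (arg z) := (Complex.norm_mul_cos_arg z).symm
  have him : z.im = ‖z‖ * Real.sin (arg z) := (Complex.norm_mul_sin_arg z).symm
  have key : z.re * Real.cos α - z.im * Real.sin α = ‖z‖ * Real.cos (arg z + α) := by
    rw [Real.cos_add, hre, him]
    rw [← hre, ← him]
    rw [Complex.norm_mul_cos_arg, Complex.norm_mul_sin_arg] at *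
    have e1 : ‖z‖ * (Real.cos (arg z) * Real.cos α - Real.sin (arg z) * Real.sin α) =
      (‖z‖ * Real.cos (arg z)) * Real.cos α - (‖z‖ * Real.sin (arg z)) * Real.sin α := by ring
    rw [e1, Complex.norm_mul_cos_arg, Complex.norm_mul_sin_arg]
  constructor
  · rintro ⟨h2, h3⟩
    have harg : 0 ≤ arg z := Complex.arg_nonneg_iff.2 h2
    have hle := Complex.arg_le_pi z
    have hz : z ≠ 0 := by
      rintro rfl
      simp at h3
    refine ⟨hz, harg, ?_⟩
    by_contra hcon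
    push Not at hcon
    have h4 : Real.cos (arg z + α) ≤ 0 :=
      Real.cos_nonpos_of_pi_div_two_le_of_le (by linarith) (by linarith)
    have h5 : ‖z‖ * Real.cos (arg z + α) ≤ 0 := mul_nonpos_of_nonneg_of_nonpos (norm_nonneg z) h4
    linarith
  · rintro ⟨hz, h2, h3⟩
    have h4 : 0 < ‖z‖ := norm_pos_iff.2 hz
    refine ⟨Complex.arg_nonneg_iff.1 h2, ?_⟩
    have h5 : 0 < Real.cos (arg z + α) := Real.cos_pos_of_mem_Ioo ⟨by linarith [Real.pi_pos], by linarith⟩
    have h6 : 0 < ‖z‖ * Real.cos (arg z + α) := mul_pos h4 h5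
    linarith

/-- a direction inside the cone -/
noncomputable def dir (α : ℝ) : ℂ := ⟨2 * Real.sin α, Real.cos α⟩

theorem Cn_add {α : ℝ} (h0 : 0 < α) (h1 : α < π / 2) {z : ℂ} (hz : z ∈ Cn α) {c : ℝ} (hc : 0 ≤ c) :
    z + (c : ℂ) * dir α ∈ Cn α := by
  obtain ⟨h2, h3⟩ := hz
  have hs : 0 < Real.sin α := Real.sin_pos_of_pos_of_lt_pi h0 (by linarith [Real.pi_pos])
  have hcos : 0 < Real.cos α := Real.cos_pos_of_mem_Ioo ⟨by linarith, h1⟩
  have e1 : (z + (c : ℂ) * dir α).re = z.re + c * (2 * Real.sin α) := by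
    simp [dir]
  have e2 : (z + (c : ℂ) * dir α).im = z.im + c * Real.cos α := by
    simp [dir]
  refine ⟨?_, ?_⟩
  · rw [e2]
    positivity
  · rw [e1, e2]
    have : 0 ≤ c * (Real.sin α * Real.cos α) := by positivity
    nlinarith

theorem wedge_of_Cn {α : ℝ} (h0 : 0 < α) (h1 : α < π / 2) {z : ℂ} (hz : z ∈ Cn α) (him : 0 < z.im) :
    z ∈ Hh 0 ∩ Hh α := by
  have hs : 0 < Real.sin α := Real.sin_pos_of_pos_of_lt_pi h0 (by linarith [Real.pi_pos])
  have hcos : 0 < Real.cos α := Real.cos_pos_of_mem_Ioo ⟨by linarith, h1⟩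
  refine ⟨(mem_Hh0 z).2 him, ?_⟩
  have h3 : 0 < z.re := by
    by_contra hcon
    push Not at hcon
    have h4 : z.re * Real.cos α ≤ 0 := mul_nonpos_of_nonpos_of_nonneg hcon hcos.le
    have h5 : 0 < z.im * Real.sin α := mul_pos him hs
    linarith [hz.2]
  change 0 < z.re * Real.sin α + z.im * Real.cos α
  positivity

/-- the bound of the diffracted kernel -/
theorem Gf_bound {α δ r : ℝ} (h0 : 0 < α) (h1 : α < π / 2) (hδ : 0 < δ) (hδ2 : δ < π / 2) (hr : 0 < r) :
    ∃ C : ℝ, 0 < C ∧ ∀ (s : ℝ) (z w : ℂ), 0 < s → s ≤ 1 → 0 ≤ arg z → arg z ≤ π - α → r ≤ ‖z‖ →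
      0 ≤ arg w → arg w ≤ π / 2 - α - δ → r ≤ ‖w‖ →
      |Gf α s z w| ≤ C * (Real.exp (-(r ^ 2 / (2 * s))) / s) := by
  set β : ℝ := π / 2 - δ / 2 with hβ
  have hpi := Real.pi_pos
  have hβ0 : 0 ≤ β := by rw [hβ]; linarith
  have hβ1 : β < π / 2 := by rw [hβ]; linarith
  have hcos : 0 < Real.cos β := Real.cos_pos_of_mem_Ioo ⟨by linarith, hβ1⟩
  set B : ℝ := √(π / (r ^ 2 * Real.cos β)) with hB
  have hB0 : 0 < B := Real.sqrt_pos.2 (by positivity)
  refine ⟨1 / π ^ 2 * (B * (2 / δ)), by positivity, ?_⟩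
  intro s z w hs hs1 hz0 hz1 hzr hw0 hw1 hwr
  have hz : 0 < ‖z‖ := by linarith
  have hw : 0 < ‖w‖ := by linarith
  set x : ℝ := ‖z‖ * ‖w‖ / (2 * s) with hx
  have hx0 : 0 < x := by positivity
  have hrx : r ^ 2 / (2 * s) ≤ x := by
    rw [hx]
    apply div_le_div_of_nonneg_right _ (by positivity)
    nlinarith
  -- the integral
  have hint : ∀ μ ∈ Ioi (0 : ℝ), ‖Kf μ x * Rf α μ * (Real.sinh (arg z * μ) * Real.sinh (arg w * μ))‖ ≤
      B * Real.exp (-(δ / 2) * μ) := by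
    intro μ hμ
    have hμ0 : 0 < μ := hμ
    have k1 := Pool.Agent.N789.KF.kf.1 μ x β hμ0.le hx0 hβ0 hβ1
    have k2 : √(π / (2 * x * Real.cos β)) ≤ B := by
      apply Real.sqrt_le_sqrt
      apply div_le_div_of_nonneg_left hpi.le (by positivity)
      have e1 : r ^ 2 ≤ 2 * x := by
        have : r ^ 2 / (2 * s) * (2 * s) ≤ x * (2 * s) := mul_le_mul_of_nonneg_right hrx (by positivity)
        rw [div_mul_cancel₀ _ (by positivity)] at this
        nlinarith
      nlinarith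
    have k3 : |Kf μ x| ≤ Real.exp (-(β * μ)) * B := by
      refine k1.trans ?_
      have e1 : Real.exp (-(β * μ) - x * Real.cos β) ≤ Real.exp (-(β * μ)) :=
        Real.exp_le_exp.2 (by nlinarith [mul_pos hx0 hcos])
      exact mul_le_mul e1 k2 (Real.sqrt_nonneg _) (Real.exp_pos _).le
    have hsz0 : 0 ≤ Real.sinh (arg z * μ) := Real.sinh_nonneg_iff.2 (by positivity)
    have hsw0 : 0 ≤ Real.sinh (arg w * μ) := Real.sinh_nonneg_iff.2 (by positivity)
    have hsa0 : 0 < Real.sinh (α * μ) := Real.sinh_pos_iff.2 (by positivity)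
    have hsb0 : 0 < Real.sinh ((π - α) * μ) := Real.sinh_pos_iff.2 (mul_pos (by linarith) hμ0)
    have k4 : Rf α μ * Real.sinh (arg z * μ) ≤ Real.exp (α * μ) := by
      unfold Rf
      rw [div_mul_eq_mul_div, div_le_iff₀ hsb0]
      have e1 : Real.sinh (arg z * μ) ≤ Real.sinh ((π - α) * μ) :=
        Real.sinh_le_sinh.2 (mul_le_mul_of_nonneg_right hz1 hμ0.le)
      have e2 : Real.sinh (α * μ) ≤ Real.exp (α * μ) := by
        rw [Real.sinh_eq]
        have := Real.exp_pos (α * μ)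
        have := Real.exp_pos (-(α * μ))
        linarith
      exact mul_le_mul e2 e1 hsz0 (Real.exp_pos _).le
    have k5 : Real.sinh (arg w * μ) ≤ Real.exp ((π / 2 - α - δ) * μ) := by
      have e1 : Real.sinh (arg w * μ) ≤ Real.exp (arg w * μ) := by
        rw [Real.sinh_eq]
        have := Real.exp_pos (arg w * μ)
        have := Real.exp_pos (-(arg w * μ))
        linarith
      exact e1.trans (Real.exp_le_exp.2 (mul_le_mul_of_nonneg_right hw1 hμ0.le))
    have hR0 : 0 ≤ Rf α μ := by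
      unfold Rf
      positivity
    have e0 : Kf μ x * Rf α μ * (Real.sinh (arg z * μ) * Real.sinh (arg w * μ)) =
        Kf μ x * ((Rf α μ * Real.sinh (arg z * μ)) * Real.sinh (arg w * μ)) := by ring
    rw [e0, Real.norm_eq_abs, abs_mul,
      abs_of_nonneg (mul_nonneg (mul_nonneg hR0 hsz0) hsw0)]
    have e3 : (Rf α μ * Real.sinh (arg z * μ)) * Real.sinh (arg w * μ) ≤
        Real.exp (α * μ) * Real.exp ((π / 2 - α - δ) * μ) :=
      mul_le_mul k4 k5 hsw0 (Real.exp_pos _).le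
    calc |Kf μ x| * ((Rf α μ * Real.sinh (arg z * μ)) * Real.sinh (arg w * μ))
        ≤ (Real.exp (-(β * μ)) * B) * (Real.exp (α * μ) * Real.exp ((π / 2 - α - δ) * μ)) :=
          mul_le_mul k3 e3 (mul_nonneg (mul_nonneg hR0 hsz0) hsw0) (by positivity)
      _ = B * (Real.exp (-(β * μ)) * (Real.exp (α * μ) * Real.exp ((π / 2 - α - δ) * μ))) := by ring
      _ = B * Real.exp (-(δ / 2) * μ) := by
          rw [← Real.exp_add, ← Real.exp_add]
          congr 2
          rw [hβ]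
          ring
  have hexp : IntegrableOn (fun μ : ℝ => B * Real.exp (-(δ / 2) * μ)) (Ioi 0) :=
    (exp_neg_integrableOn_Ioi 0 (by positivity)).const_mul B
  have hI : ‖∫ μ in Ioi (0 : ℝ), Kf μ x * Rf α μ * (Real.sinh (arg z * μ) * Real.sinh (arg w * μ))‖ ≤
      B * (2 / δ) := by
    refine (norm_integral_le_of_norm_le hexp ?_).trans (le_of_eq ?_)
    · exact (ae_restrict_iff' measurableSet_Ioi).2 (Eventually.of_forall hint)
    · rw [integral_const_mul, integral_exp_mul_Ioi (by linarith) 0]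
      simp only [mul_zero, Real.exp_zero]
      field_simp
  unfold Gf
  rw [abs_mul]
  have e1 : |Real.exp (-((‖z‖ ^ 2 + ‖w‖ ^ 2) / (4 * s))) / (π ^ 2 * s)| ≤
      1 / π ^ 2 * (Real.exp (-(r ^ 2 / (2 * s))) / s) := by
    rw [abs_of_pos (by positivity)]
    have e2 : Real.exp (-((‖z‖ ^ 2 + ‖w‖ ^ 2) / (4 * s))) ≤ Real.exp (-(r ^ 2 / (2 * s))) := by
      apply Real.exp_le_exp.2
      apply neg_le_neg
      rw [div_le_div_iff₀ (by positivity) (by positivity)]
      have : r ^ 2 + r ^ 2 ≤ ‖z‖ ^ 2 + ‖w‖ ^ 2 := by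
        have := pow_le_pow_left₀ hr.le hzr 2
        have := pow_le_pow_left₀ hr.le hwr 2
        linarith
      nlinarith
    calc Real.exp (-((‖z‖ ^ 2 + ‖w‖ ^ 2) / (4 * s))) / (π ^ 2 * s)
        ≤ Real.exp (-(r ^ 2 / (2 * s))) / (π ^ 2 * s) :=
          div_le_div_of_nonneg_right e2 (by positivity)
      _ = _ := by field_simp
  rw [Real.norm_eq_abs] at hI
  calc _ ≤ (1 / π ^ 2 * (Real.exp (-(r ^ 2 / (2 * s))) / s)) * (B * (2 / δ)) :=
        mul_le_mul e1 hI (abs_nonneg _) (by positivity)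
    _ = _ := by ring

end Pool.Agent.N868.QD
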